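import Mathlib

set_option autoImplicit false

namespace Pool.Agent.Results.MP_939d63_gt.NotRF

open Set Real
open scoped commutatorElement

/-- two leaves are linked: the endpoints of the first separate the endpoints of the second -/
def Linked (l m : Sym2 Circle) : Prop :=
  ∃ a b c d : Circle, l = s(a, b) ∧ m = s(c, d) ∧ c ∉ ({a, b} : Set Circle) ∧
    d ∉ ({a, b} : Set Circle) ∧ d ∉ connectedComponentIn ({a, b} : Set Circle)ᶜ c

/-- a lamination of the circle: a nonempty closed set of pairwise unlinked unordered pairs of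
distinct points (closed in the space of pairs of distinct points) -/
structure IsLamination (Λ : Set (Sym2 Circle)) : Prop where
  nonempty : Λ.Nonempty
  distinct : ∀ l ∈ Λ, ¬ l.IsDiag
  closed : IsClosed {q : {q : Circle × Circle // q.1 ≠ q.2} | s(q.1.1, q.1.2) ∈ Λ}
  unlinked : ∀ l ∈ Λ, ∀ m ∈ Λ, ¬ Linked l m

/-- the open disc minus the leaves; in the Klein model of the hyperbolic plane the geodesic with
ideal endpoints `a`, `b` is the open chord from `a` to `b` -/
def offLeaves (Λ : Set (Sym2 Circle)) : Set ℂ :=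
  Metric.ball (0 : ℂ) 1 \ ⋃ (a : Circle) (b : Circle) (_ : s(a, b) ∈ Λ), openSegment ℝ (a : ℂ) (b : ℂ)

/-- every gap is the convex hull of finitely many (at least three) points of the circle -/
def VeryFull (Λ : Set (Sym2 Circle)) : Prop :=
  ∀ z ∈ offLeaves Λ, ∃ V : Finset Circle, 3 ≤ V.card ∧
    closure (connectedComponentIn (offLeaves Λ) z) = convexHull ℝ ((fun v : Circle => (v : ℂ)) '' (V : Set Circle))

/-- a homeomorphism of the circle preserves orientation: it has an increasing lift of degree one -/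
def OrientationPreserving (f : Circle ≃ₜ Circle) : Prop :=
  ∃ F : ℝ → ℝ, Continuous F ∧ StrictMono F ∧ (∀ x, F (x + 2 * π) = F x + 2 * π) ∧
    ∀ x, f (Circle.exp x) = Circle.exp (F x)

noncomputable def sg (x : ℝ) : ℝ := arctan x / π + 1 / 2
noncomputable def ta (y : ℝ) : ℝ := tan (π * (y - 1 / 2))

lemma sg_pos (x : ℝ) : 0 < sg x := by
  have := neg_pi_div_two_lt_arctan x
  have h : -(1 / 2) < arctan x / π := by rw [lt_div_iff₀ pi_pos]; linarith
  unfold sg; linarith

lemma sg_lt (x : ℝ) : sg x < 1 := by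
  have := arctan_lt_pi_div_two x
  have h : arctan x / π < 1 / 2 := by rw [div_lt_iff₀ pi_pos]; linarith
  unfold sg; linarith

lemma ta_sg (x : ℝ) : ta (sg x) = x := by
  unfold ta sg
  rw [add_sub_cancel_right, mul_div_cancel₀ _ pi_pos.ne', tan_arctan]

lemma sg_ta {y : ℝ} (h0 : 0 < y) (h1 : y < 1) : sg (ta y) = y := by
  unfold ta sg
  rw [arctan_tan (by nlinarith [pi_pos]) (by nlinarith [pi_pos])]
  field_simp
  ring

lemma sg_mono : StrictMono sg := fun a b h => by
  unfold sg
  have := arctan_strictMono h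
  have := div_lt_div_of_pos_right this pi_pos
  linarith

lemma ta_lt {x y : ℝ} (h0 : 0 < x) (h : x < y) (h1 : y < 1) : ta x < ta y := by
  rw [← sg_mono.lt_iff_lt, sg_ta h0 (by linarith), sg_ta (by linarith) h1]
  exact h

noncomputable def lift (g : ℝ ≃o ℝ) (x : ℝ) : ℝ :=
  if Int.fract x = 0 then x else ⌊x⌋ + sg (g (ta (Int.fract x)))

lemma lift_int_add_sg (g : ℝ ≃o ℝ) (k : ℤ) (y : ℝ) : lift g (k + sg y) = k + sg (g y) := by
  have h1 : Int.fract ((k : ℝ) + sg y) = sg y := by
    rw [Int.fract_intCast_add, Int.fract_eq_self.2 ⟨(sg_pos y).le, sg_lt y⟩]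
  have h2 : ⌊(k : ℝ) + sg y⌋ = k := by
    rw [Int.floor_intCast_add, Int.floor_eq_zero_iff.2 ⟨(sg_pos y).le, sg_lt y⟩, add_zero]
  rw [lift, h1, if_neg (sg_pos y).ne', h2, ta_sg]

lemma lift_int (g : ℝ ≃o ℝ) (k : ℤ) : lift g k = k := by simp [lift]

lemma cases (x : ℝ) : (∃ k : ℤ, x = k) ∨ ∃ (k : ℤ) (y : ℝ), x = k + sg y := by
  by_cases h : Int.fract x = 0
  · left
    exact ⟨⌊x⌋, by have := Int.floor_add_fract x; linarith⟩
  · right
    refine ⟨⌊x⌋, ta (Int.fract x), ?_⟩
    rw [sg_ta (lt_of_le_of_ne (Int.fract_nonneg x) (Ne.symm h)) (Int.fract_lt_one x),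
      Int.floor_add_fract]

lemma lift_mul (g h : ℝ ≃o ℝ) (x : ℝ) : lift (g * h) x = lift g (lift h x) := by
  rcases cases x with ⟨k, rfl⟩ | ⟨k, y, rfl⟩
  · simp only [lift_int]
  · simp only [lift_int_add_sg]; rfl

lemma lift_one (x : ℝ) : lift 1 x = x := by
  rcases cases x with ⟨k, rfl⟩ | ⟨k, y, rfl⟩
  · simp only [lift_int]
  · simp only [lift_int_add_sg]; rfl

lemma lift_add (g : ℝ ≃o ℝ) (x : ℝ) (m : ℤ) : lift g (x + m) = lift g x + m := by
  rcases cases x with ⟨k, rfl⟩ | ⟨k, y, rfl⟩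
  · rw [← Int.cast_add, lift_int, lift_int, Int.cast_add]
  · rw [add_right_comm, ← Int.cast_add, lift_int_add_sg, lift_int_add_sg, Int.cast_add]; ring

lemma lift_mono (g : ℝ ≃o ℝ) : StrictMono (lift g) := by
  intro x x' h
  rcases cases x with ⟨k, rfl⟩ | ⟨k, y, rfl⟩ <;> rcases cases x' with ⟨k', rfl⟩ | ⟨k', y', rfl⟩
  · simpa only [lift_int] using h
  · rw [lift_int, lift_int_add_sg]
    have : (k : ℝ) < k' + 1 := by linarith [sg_lt y']
    have : k < k' + 1 := by exact_mod_cast this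
    have : (k : ℝ) ≤ k' := by exact_mod_cast (by omega : k ≤ k')
    linarith [sg_pos (g y')]
  · rw [lift_int, lift_int_add_sg]
    have : (k : ℝ) < k' := by linarith [sg_pos y]
    have : k < k' := by exact_mod_cast this
    have : (k : ℝ) + 1 ≤ k' := by exact_mod_cast (by omega : k + 1 ≤ k')
    linarith [sg_lt (g y)]
  · rw [lift_int_add_sg, lift_int_add_sg]
    have : (k : ℝ) < k' + 1 := by linarith [sg_lt y', sg_pos y]
    have : k < k' + 1 := by exact_mod_cast this
    rcases (by omega : k = k' ∨ k + 1 ≤ k') with rfl | h'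
    · have : y < y' := sg_mono.lt_iff_lt.1 (by linarith)
      have := sg_mono (g.strictMono this)
      linarith
    · have : (k : ℝ) + 1 ≤ k' := by exact_mod_cast h'
      linarith [sg_lt (g y), sg_pos (g y')]

lemma lift_cont (g : ℝ ≃o ℝ) : Continuous (lift g) :=
  ((lift_mono g).orderIsoOfSurjective _ (fun x => ⟨lift g⁻¹ x, by
    rw [← lift_mul, mul_inv_cancel, lift_one]⟩)).continuous

noncomputable def F (g : ℝ ≃o ℝ) (x : ℝ) : ℝ := 2 * π * lift g (x / (2 * π))

lemma F_add (g : ℝ ≃o ℝ) (x : ℝ) (m : ℤ) : F g (x + m * (2 * π)) = F g x + m * (2 * π) := by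
  unfold F
  rw [add_div, mul_div_cancel_right₀ _ two_pi_pos.ne', lift_add]; ring

lemma F_mul (g h : ℝ ≃o ℝ) (x : ℝ) : F (g * h) x = F g (F h x) := by
  unfold F
  rw [mul_div_cancel_left₀ _ two_pi_pos.ne', lift_mul]

lemma F_one (x : ℝ) : F 1 x = x := by
  unfold F
  rw [lift_one]; field_simp

lemma F_cont (g : ℝ ≃o ℝ) : Continuous (F g) :=
  continuous_const.mul ((lift_cont g).comp (continuous_id.div_const _))

lemma F_mono (g : ℝ ≃o ℝ) : StrictMono (F g) := fun _ _ h =>
  mul_lt_mul_of_pos_left (lift_mono g (div_lt_div_of_pos_right h two_pi_pos)) two_pi_pos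

noncomputable def circ (g : ℝ ≃o ℝ) (z : Circle) : Circle := Circle.exp (F g (Complex.arg z))

lemma circ_exp (g : ℝ ≃o ℝ) (x : ℝ) : circ g (Circle.exp x) = Circle.exp (F g x) := by
  obtain ⟨m, hm⟩ := Circle.exp_eq_exp.1 (Circle.exp_arg (Circle.exp x))
  rw [circ, hm, F_add]
  exact Circle.exp_eq_exp.2 ⟨m, rfl⟩

lemma exp_surj (z : Circle) : ∃ x, z = Circle.exp x := ⟨_, (Circle.exp_arg z).symm⟩

lemma circ_cont (g : ℝ ≃o ℝ) : Continuous (circ g) := by
  have hq : Topology.IsQuotientMap Circle.exp :=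
    Circle.isCoveringMap_exp.isLocalHomeomorph.isOpenMap.isQuotientMap Circle.exp.continuous
      (fun z => ⟨_, Circle.exp_arg z⟩)
  rw [hq.continuous_iff]
  have : circ g ∘ Circle.exp = Circle.exp ∘ F g := funext fun x => circ_exp g x
  rw [this]
  exact Circle.exp.continuous.comp (F_cont g)

lemma circ_mul (g h : ℝ ≃o ℝ) (z : Circle) : circ (g * h) z = circ g (circ h z) := by
  obtain ⟨x, rfl⟩ := exp_surj z
  rw [circ_exp, circ_exp, circ_exp, F_mul]

lemma circ_one (z : Circle) : circ 1 z = z := by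
  obtain ⟨x, rfl⟩ := exp_surj z
  rw [circ_exp, F_one]

noncomputable def Phi : (ℝ ≃o ℝ) →* (Circle ≃ₜ Circle) where
  toFun g :=
    { toFun := circ g
      invFun := circ g⁻¹
      left_inv := fun z => by rw [← circ_mul, inv_mul_cancel, circ_one]
      right_inv := fun z => by rw [← circ_mul, mul_inv_cancel, circ_one]
      continuous_toFun := circ_cont g
      continuous_invFun := circ_cont g⁻¹ }
  map_one' := Homeomorph.ext circ_one
  map_mul' g h := Homeomorph.ext (circ_mul g h)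

lemma Phi_apply (g : ℝ ≃o ℝ) (z : Circle) : Phi g z = circ g z := rfl

lemma Phi_inj : Function.Injective Phi := by
  rw [injective_iff_map_eq_one]
  intro g hg
  ext y
  have h1 : circ g (Circle.exp (2 * π * sg y)) = Circle.exp (2 * π * sg y) := by
    rw [← Phi_apply, hg]; rfl
  rw [circ_exp, F, mul_div_cancel_left₀ _ two_pi_pos.ne'] at h1
  have h2 := lift_int_add_sg g 0 y
  simp only [Int.cast_zero, zero_add] at h2
  rw [h2] at h1
  obtain ⟨m, hm⟩ := Circle.exp_eq_exp.1 h1
  have h3 : sg (g y) = sg y + m := by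
    have := two_pi_pos
    apply mul_left_cancel₀ this.ne'
    linarith
  have h4 : (m : ℝ) < 1 := by linarith [sg_lt (g y), sg_pos y]
  have h5 : (-1 : ℝ) < m := by linarith [sg_pos (g y), sg_lt y]
  have h6 : m = 0 := by
    have : m < 1 := by exact_mod_cast h4
    have : -1 < m := by exact_mod_cast h5
    omega
  rw [h6, Int.cast_zero, add_zero] at h3
  exact sg_mono.injective h3

lemma Phi_one (g : ℝ ≃o ℝ) : Phi g 1 = 1 := by
  have h := circ_exp g 0
  have h0 := lift_int g 0
  simp only [Int.cast_zero] at h0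
  rw [F, zero_div, h0, mul_zero, Circle.exp_zero] at h
  exact h

/-- the fan of all leaves through the point `1` -/
def fan : Set (Sym2 Circle) := {l | (1 : Circle) ∈ l ∧ ¬ l.IsDiag}

lemma fan_lam : IsLamination fan where
  nonempty := ⟨s(1, -1), by simp, by
    rw [Sym2.mk_isDiag_iff]
    intro h
    have := congrArg ((↑) : Circle → ℂ) h
    simp at this
    norm_num at this⟩
  distinct := fun _ h => h.2
  closed := by
    have : {q : {q : Circle × Circle // q.1 ≠ q.2} | s(q.1.1, q.1.2) ∈ fan} =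
        {q | q.1.1 = 1} ∪ {q | q.1.2 = 1} := by
      ext q
      have := q.2
      simp only [fan, mem_ofPred_eq, Sym2.mem_iff, Sym2.mk_isDiag_iff, mem_union]
      tauto
    rw [this]
    exact (isClosed_eq (by fun_prop) continuous_const).union
      (isClosed_eq (by fun_prop) continuous_const)
  unlinked := by
    rintro l hl m hm ⟨a, b, c, d, rfl, rfl, hc, hd, -⟩
    have h1 := hl.1
    have h2 := hm.1
    simp only [Sym2.mem_iff, mem_insert_iff, mem_singleton_iff] at h1 h2 hc hd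
    rcases h2 with rfl | rfl
    · exact hc h1
    · exact hd h1

lemma off_fan : offLeaves fan = ∅ := by
  rw [offLeaves, sdiff_eq_empty]
  intro z hz
  rw [Metric.mem_ball, dist_zero_right] at hz
  have hz2 : z.re ^ 2 + z.im ^ 2 < 1 := by
    have h := Complex.sq_norm z
    rw [Complex.normSq_apply] at h
    nlinarith [norm_nonneg z]
  have hre : z.re < 1 := by nlinarith
  set D : ℝ := (1 - z.re) ^ 2 + z.im ^ 2 with hD
  have hD0 : 0 < D := by positivity
  set s : ℝ := 2 * (1 - z.re) / D with hs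
  have hs1 : 1 < s := by rw [hs, lt_div_iff₀ hD0]; nlinarith
  have hsD : s * D = 2 * (1 - z.re) := by rw [hs]; field_simp
  have hb : ‖(1 : ℂ) + s * (z - 1)‖ = 1 := by
    rw [← sq_eq_sq₀ (norm_nonneg _) zero_le_one, Complex.sq_norm, Complex.normSq_apply]
    simp only [Complex.add_re, Complex.one_re, Complex.mul_re, Complex.ofReal_re, Complex.sub_re,
      Complex.ofReal_im, Complex.sub_im, Complex.one_im, Complex.add_im, Complex.mul_im]
    have : s * (s * D) = s * (2 * (1 - z.re)) := by rw [hsD]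
    rw [hD] at this
    nlinarith
  let b : Circle := ⟨1 + s * (z - 1), by simpa [Submonoid.unitSphere] using hb⟩
  have hbc : (b : ℂ) = 1 + s * (z - 1) := rfl
  simp only [mem_iUnion]
  refine ⟨1, b, ⟨by simp, ?_⟩, 1 - 1 / s, 1 / s, ?_, by positivity, by ring, ?_⟩
  · rw [Sym2.mk_isDiag_iff]
    intro h
    have h1 := congrArg (fun w : Circle => (w : ℂ).re) h
    simp only [hbc, Circle.coe_one, Complex.add_re, Complex.one_re, Complex.mul_re,
      Complex.ofReal_re, Complex.sub_re, Complex.ofReal_im] at h1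
    nlinarith
  · rw [sub_pos, div_lt_one (by linarith)]; exact hs1
  · have hs0 : (s : ℂ) ≠ 0 := by exact_mod_cast (by linarith : s ≠ 0)
    rw [hbc, Circle.coe_one]
    simp only [Complex.real_smul]
    push_cast
    field_simp
    ring

noncomputable def tf (x : ℝ) : ℝ := 3 / 2 * x + sin (π * x) / 4

lemma tf_mono : StrictMono tf := fun x y h => by
  unfold tf
  have h1 := abs_sin_sub_sin_le (π * x) (π * y)
  rw [← mul_sub, abs_mul, abs_of_pos pi_pos, abs_of_neg (sub_neg.2 h)] at h1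
  have h2 := le_abs_self (sin (π * x) - sin (π * y))
  nlinarith [pi_lt_four]

lemma tf_surj : Function.Surjective tf := fun y => by
  have hc : Continuous tf := by unfold tf; fun_prop
  refine mem_range_of_exists_le_of_exists_ge hc ⟨2 / 3 * (y - 1), ?_⟩ ⟨2 / 3 * (y + 1), ?_⟩
  · unfold tf; linarith [sin_le_one (π * (2 / 3 * (y - 1)))]
  · unfold tf; linarith [neg_one_le_sin (π * (2 / 3 * (y + 1)))]

noncomputable def t : ℝ ≃o ℝ := tf_mono.orderIsoOfSurjective tf tf_surj
noncomputable def a : ℝ ≃o ℝ := OrderIso.addRight 1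

lemma t_apply (x : ℝ) : t x = tf x := rfl
lemma a_apply (x : ℝ) : a x = x + 1 := rfl

lemma rel : t * a ^ 2 * t⁻¹ = a ^ 3 := by
  rw [mul_inv_eq_iff_eq_mul]
  ext x
  change tf (x + 1 + 1) = tf x + 1 + 1 + 1
  unfold tf
  rw [show π * (x + 1 + 1) = π * x + 2 * π by ring, sin_add_two_pi]
  ring

lemma noncomm : ¬ Commute (t * a * t⁻¹) a := by
  intro h
  obtain ⟨x, hx⟩ := tf_surj 1
  have h0 : t⁻¹ (0 : ℝ) = 0 := by
    apply t.injective
    change t (t.symm 0) = tf 0
    simp [tf]
  have h1 : t⁻¹ ((0 : ℝ) + 1) = x := by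
    apply t.injective
    change t (t.symm (0 + 1)) = tf x
    simp [hx]
  have h2 : tf (t⁻¹ ((0 : ℝ) + 1) + 1) = tf (t⁻¹ (0 : ℝ) + 1) + 1 :=
    congrArg (fun g : ℝ ≃o ℝ => g 0) h.eq
  rw [h0, h1] at h2
  unfold tf at h2 hx
  rw [mul_add π x, mul_one, sin_add_pi, zero_add, mul_one, mul_one, sin_pi] at h2
  have h3 : sin (π * x) = 0 := by linarith
  have h4 : x = 2 / 3 := by linarith
  rw [h4] at h3
  have := sin_pos_of_pos_of_lt_pi (x := π * (2 / 3)) (by positivity) (by linarith [pi_pos])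
  linarith

lemma fin_comm {H : Type} [Group H] [Finite H] (A T : H) (h : T * A ^ 2 * T⁻¹ = A ^ 3) :
    Commute (T * A * T⁻¹) A := by
  have hn := orderOf_pos A
  rcases Nat.even_or_odd' (orderOf A) with ⟨k, hk | hk⟩
  · exfalso
    have h1 : A ^ (3 * k) = 1 := by
      rw [pow_mul, ← h, conj_pow, ← pow_mul, ← hk, pow_orderOf_eq_one]; simp
    have h2 := orderOf_dvd_of_pow_eq_one h1
    rw [hk] at h2
    have h3 := Nat.dvd_of_mul_dvd_mul_right (by omega : 0 < k) h2
    omega
  · have h1 : A = (A ^ 2) ^ (k + 1) := by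
      rw [← pow_mul, show 2 * (k + 1) = orderOf A + 1 by omega, pow_succ, pow_orderOf_eq_one,
        one_mul]
    have h2 : T * A * T⁻¹ = (A ^ 3) ^ (k + 1) := by
      rw [← h, conj_pow, ← h1]
    rw [h2, ← pow_mul]
    exact (Commute.refl A).pow_left _

theorem result : ∃ (G : Type) (_ : Group G) (ρ : G →* (Circle ≃ₜ Circle)) (Λ : Set (Sym2 Circle)),
    Group.FG G ∧ Function.Injective ρ ∧ (∀ g, OrientationPreserving (ρ g)) ∧
    IsLamination Λ ∧ VeryFull Λ ∧ (∀ g, Sym2.map (ρ g) '' Λ = Λ) ∧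
    ∃ g : G, g ≠ 1 ∧ ∀ (H : Type) [Group H] [Finite H] (φ : G →* H), φ g = 1 := by
  let G := Subgroup.closure ({a, t} : Set (ℝ ≃o ℝ))
  have hmap : ∀ g : ℝ ≃o ℝ, ∀ l ∈ fan, Sym2.map (Phi g) l ∈ fan := by
    intro g l hl
    refine ⟨?_, ?_⟩
    · rw [← Phi_one g]; exact Sym2.mem_map.2 ⟨1, hl.1, rfl⟩
    · rw [Sym2.isDiag_map (Phi g).injective]; exact hl.2
  refine ⟨G, inferInstance, Phi.comp G.subtype, fan, Group.closure_finite_fg _,
    Phi_inj.comp G.subtype_injective, ?_, fan_lam, ?_, ?_, ?_⟩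
  · intro g
    refine ⟨F g, F_cont _, F_mono _, fun x => ?_, fun x => circ_exp _ x⟩
    simpa using F_add g x 1
  · intro z hz
    rw [off_fan] at hz
    exact hz.elim
  · intro g
    refine Subset.antisymm ?_ fun l hl => ⟨_, hmap (g : ℝ ≃o ℝ)⁻¹ l hl, ?_⟩
    · rintro _ ⟨l, hl, rfl⟩
      exact hmap g l hl
    · rw [Sym2.map_map]
      have : ((Phi.comp G.subtype g : Circle ≃ₜ Circle) : Circle → Circle) ∘
          (Phi (g : ℝ ≃o ℝ)⁻¹) = id := by
        funext z
        change circ g (circ (g : ℝ ≃o ℝ)⁻¹ z) = z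
        rw [← circ_mul, mul_inv_cancel, circ_one]
      rw [this, Sym2.map_id, id]
  · let A : G := ⟨a, Subgroup.subset_closure (by simp)⟩
    let T : G := ⟨t, Subgroup.subset_closure (by simp)⟩
    refine ⟨⁅T * A * T⁻¹, A⁆, ?_, ?_⟩
    · rw [Ne, commutatorElement_eq_one_iff_commute]
      intro h
      exact noncomm (h.map G.subtype)
    · intro H _ _ φ
      rw [map_commutatorElement, commutatorElement_eq_one_iff_commute, map_mul, map_mul, map_inv]
      refine fin_comm _ _ ?_
      have : T * A ^ 2 * T⁻¹ = A ^ 3 := Subtype.ext rel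
      rw [← map_pow, ← map_pow, ← this]
      simp

end Pool.Agent.Results.MP_939d63_gt.NotRF
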